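import Pool.Agent.Helper50.Drop.CoDefs

set_option autoImplicit false

namespace Pool.Agent.Helper50.Drop

open Finset MeasureTheory
open scoped RealInnerProductSpace
open Pool.Agent.Helper76.Freq (Q ins tr gr ev cobd cup Pr Adm gp Dep Nrm R3 E6 ver pt qf IsTop IsBot
  H4 exists_isTop exists_isBot)

namespace TopPf

/-- sequence with given first entries -/
def tp {Y : Type} (p0 p1 p2 p3 p4 p5 : Y) : ℕ → Y
  | 0 => p0
  | 1 => p1
  | 2 => p2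
  | 3 => p3
  | 4 => p4
  | _ => p5

/-- the cochain as a function of five points -/
def w {Y : Type} (W : (ℕ → Y) → ℤ) (p0 p1 p2 p3 p4 : Y) : ℤ := W (tp p0 p1 p2 p3 p4 p4)

theorem W_eq {Y : Type} {W : (ℕ → Y) → ℤ} (hD : Dep 4 W) (y : ℕ → Y) :
    W y = w W (y 0) (y 1) (y 2) (y 3) (y 4) := by
  apply hD
  intro j hj
  interval_cases j <;> rfl

theorem cobd_tp {Y : Type} {W : (ℕ → Y) → ℤ} (hD : Dep 4 W) (p0 p1 p2 p3 p4 p5 : Y) :
    cobd 4 W (tp p0 p1 p2 p3 p4 p5) = w W p1 p2 p3 p4 p5 - w W p0 p2 p3 p4 p5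
      + w W p0 p1 p3 p4 p5 - w W p0 p1 p2 p4 p5 + w W p0 p1 p2 p3 p5 - w W p0 p1 p2 p3 p4 := by
  simp only [cobd, sum_range_succ, sum_range_zero]
  rw [W_eq hD (fun j => tp p0 p1 p2 p3 p4 p5 (Pool.Agent.Helper76.Freq.sk 0 j)),
    W_eq hD (fun j => tp p0 p1 p2 p3 p4 p5 (Pool.Agent.Helper76.Freq.sk 1 j)),
    W_eq hD (fun j => tp p0 p1 p2 p3 p4 p5 (Pool.Agent.Helper76.Freq.sk 2 j)),
    W_eq hD (fun j => tp p0 p1 p2 p3 p4 p5 (Pool.Agent.Helper76.Freq.sk 3 j)),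
    W_eq hD (fun j => tp p0 p1 p2 p3 p4 p5 (Pool.Agent.Helper76.Freq.sk 4 j)),
    W_eq hD (fun j => tp p0 p1 p2 p3 p4 p5 (Pool.Agent.Helper76.Freq.sk 5 j))]
  simp [Pool.Agent.Helper76.Freq.sk, tp]
  ring

/-- the prism in terms of the points -/
def PP {Y : Type} (W : (ℕ → Y) → ℤ) (a0 a1 a2 a3 b0 b1 b2 b3 : Y) : ℤ :=
  w W a0 b0 b1 b2 b3 - w W a0 a1 b1 b2 b3 + w W a0 a1 a2 b2 b3 - w W a0 a1 a2 a3 b3

theorem Pr_eq {Y : Type} {W : (ℕ → Y) → ℤ} (hD : Dep 4 W) (a b : ℕ → Y) :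
    Pr 4 W (fun i => (a i, b i)) =
      PP W (a 0) (a 1) (a 2) (a 3) (b 0) (b 1) (b 2) (b 3) := by
  simp only [Pr, sum_range_succ, sum_range_zero]
  rw [W_eq hD (Pool.Agent.Helper76.Freq.mix 0 _), W_eq hD (Pool.Agent.Helper76.Freq.mix 1 _),
    W_eq hD (Pool.Agent.Helper76.Freq.mix 2 _), W_eq hD (Pool.Agent.Helper76.Freq.mix 3 _)]
  simp [Pool.Agent.Helper76.Freq.mix, PP]
  ring

/-- the operator at one time -/
def tau {Y : Type} (W : (ℕ → Y) → ℤ) (a0 a1 a2 b0 b1 b2 c0 c1 c2 : Y) : ℤ :=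
  w W a0 b0 c0 c1 c2 - w W a0 b0 b1 c1 c2 + w W a0 b0 b1 b2 c2 + w W a0 a1 b1 c1 c2
    - w W a0 a1 b1 b2 c2 + w W a0 a1 a2 b2 c2

/-- the identity for one step -/
theorem step {Y : Type} {W : (ℕ → Y) → ℤ} (hD : Dep 4 W)
    (a0 a1 a2 a3 b0 b1 b2 b3 c0 c1 c2 c3 : Y)
    (h : ∀ p0 p1 p2 p3 p4 p5 : Y,
      (∀ m < 6, tp p0 p1 p2 p3 p4 p5 m ∈ ({a0, a1, a2, a3, b0, b1, b2, b3, c0, c1, c2, c3} : Set Y)) →
      cobd 4 W (tp p0 p1 p2 p3 p4 p5) = 0) :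
    PP W b0 b1 b2 b3 c0 c1 c2 c3 = PP W a0 a1 a2 a3 c0 c1 c2 c3 - PP W a0 a1 a2 a3 b0 b1 b2 b3
      - (tau W a1 a2 a3 b1 b2 b3 c1 c2 c3 - tau W a0 a2 a3 b0 b2 b3 c0 c2 c3
        + tau W a0 a1 a3 b0 b1 b3 c0 c1 c3 - tau W a0 a1 a2 b0 b1 b2 c0 c1 c2) := by
  have key : ∀ p0 p1 p2 p3 p4 p5 : Y,
      (∀ m < 6, tp p0 p1 p2 p3 p4 p5 m ∈ ({a0, a1, a2, a3, b0, b1, b2, b3, c0, c1, c2, c3} : Set Y)) →
      w W p1 p2 p3 p4 p5 - w W p0 p2 p3 p4 p5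
      + w W p0 p1 p3 p4 p5 - w W p0 p1 p2 p4 p5 + w W p0 p1 p2 p3 p5 - w W p0 p1 p2 p3 p4 = 0 := by
    intro p0 p1 p2 p3 p4 p5 hp
    rw [← cobd_tp hD]
    exact h _ _ _ _ _ _ hp
  have k1 := key a0 b0 c0 c1 c2 c3 (by intro m hm; interval_cases m <;> simp [tp])
  have k2 := key a0 b0 b1 c1 c2 c3 (by intro m hm; interval_cases m <;> simp [tp])
  have k3 := key a0 b0 b1 b2 c2 c3 (by intro m hm; interval_cases m <;> simp [tp])
  have k4 := key a0 b0 b1 b2 b3 c3 (by intro m hm; interval_cases m <;> simp [tp])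
  have k5 := key a0 a1 b1 c1 c2 c3 (by intro m hm; interval_cases m <;> simp [tp])
  have k6 := key a0 a1 b1 b2 c2 c3 (by intro m hm; interval_cases m <;> simp [tp])
  have k7 := key a0 a1 b1 b2 b3 c3 (by intro m hm; interval_cases m <;> simp [tp])
  have k8 := key a0 a1 a2 b2 c2 c3 (by intro m hm; interval_cases m <;> simp [tp])
  have k9 := key a0 a1 a2 b2 b3 c3 (by intro m hm; interval_cases m <;> simp [tp])
  have k10 := key a0 a1 a2 a3 b3 c3 (by intro m hm; interval_cases m <;> simp [tp])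
  simp only [PP, tau]
  linear_combination k1 - k2 + k3 - k4 + k5 - k6 + k7 + k8 - k9 + k10

/-- normalisation in terms of points -/
theorem nrm01 {Y : Type} {W : (ℕ → Y) → ℤ} (hN : Nrm 4 W) (p q r s : Y) : w W p p q r s = 0 :=
  hN _ ⟨0, by norm_num, rfl⟩

theorem nrm12 {Y : Type} {W : (ℕ → Y) → ℤ} (hN : Nrm 4 W) (p q r s : Y) : w W p q q r s = 0 :=
  hN _ ⟨1, by norm_num, rfl⟩

theorem nrm23 {Y : Type} {W : (ℕ → Y) → ℤ} (hN : Nrm 4 W) (p q r s : Y) : w W p q r r s = 0 :=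
  hN _ ⟨2, by norm_num, rfl⟩

theorem nrm34 {Y : Type} {W : (ℕ → Y) → ℤ} (hN : Nrm 4 W) (p q r s : Y) : w W p q r s s = 0 :=
  hN _ ⟨3, by norm_num, rfl⟩

end TopPf

open TopPf in
theorem t_operator {Y : Type} (W : (ℕ → Y) → ℤ) (hD : Dep 4 W) (hN : Nrm 4 W) (N : ℕ) :
    ∃ T : (ℕ → ℕ → Y) → ℤ, Dep 2 T ∧ Nrm 2 T ∧ ∀ x : ℕ → ℕ → Y, (∀ i < 4, x i N = x i 0) →
      (∀ y : ℕ → Y, (∀ m < 6, ∃ i < 4, ∃ j ≤ N, y m = x i j) → cobd 4 W y = 0) →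
      ∑ k ∈ range N, Pr 4 W (fun i => (x i k, x i (k + 1))) = cobd 2 T x := by
  set θ : ℕ → (ℕ → ℕ → Y) → ℤ := fun k x =>
    tau W (x 0 0) (x 1 0) (x 2 0) (x 0 k) (x 1 k) (x 2 k) (x 0 (k + 1)) (x 1 (k + 1)) (x 2 (k + 1))
    with hθ
  refine ⟨fun x => - ∑ k ∈ range N, θ k x, ?_, ?_, ?_⟩
  · intro y y' h
    have h0 := h 0 (by norm_num)
    have h1 := h 1 (by norm_num)
    have h2 := h 2 (by norm_num)
    simp only [hθ, h0, h1, h2]
  · intro y hy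
    obtain ⟨j, hj, e⟩ := hy
    rw [neg_eq_zero]
    refine sum_eq_zero fun k _ => ?_
    interval_cases j
    · simp only [hθ, zero_add] at e ⊢
      rw [← e]
      simp only [tau, nrm01 hN, nrm12 hN, nrm23 hN, nrm34 hN]
      simp
    · simp only [hθ, zero_add] at e ⊢
      norm_num at e
      rw [← e]
      simp only [tau, nrm01 hN, nrm12 hN, nrm23 hN, nrm34 hN]
      simp
  · intro x hx hW
    have hst : ∀ k ∈ range N, Pr 4 W (fun i => (x i k, x i (k + 1))) =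
        (PP W (x 0 0) (x 1 0) (x 2 0) (x 3 0) (x 0 (k + 1)) (x 1 (k + 1)) (x 2 (k + 1)) (x 3 (k + 1))
          - PP W (x 0 0) (x 1 0) (x 2 0) (x 3 0) (x 0 k) (x 1 k) (x 2 k) (x 3 k))
        - (tau W (x 1 0) (x 2 0) (x 3 0) (x 1 k) (x 2 k) (x 3 k) (x 1 (k + 1)) (x 2 (k + 1)) (x 3 (k + 1))
          - tau W (x 0 0) (x 2 0) (x 3 0) (x 0 k) (x 2 k) (x 3 k) (x 0 (k + 1)) (x 2 (k + 1)) (x 3 (k + 1))
          + tau W (x 0 0) (x 1 0) (x 3 0) (x 0 k) (x 1 k) (x 3 k) (x 0 (k + 1)) (x 1 (k + 1)) (x 3 (k + 1))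
          - tau W (x 0 0) (x 1 0) (x 2 0) (x 0 k) (x 1 k) (x 2 k) (x 0 (k + 1)) (x 1 (k + 1)) (x 2 (k + 1))) := by
      intro k hk
      have hk' : k < N := mem_range.1 hk
      rw [Pr_eq hD (fun i => x i k) (fun i => x i (k + 1))]
      refine step hD _ _ _ _ _ _ _ _ _ _ _ _ ?_
      intro p0 p1 p2 p3 p4 p5 hp
      refine hW _ fun m hm => ?_
      have := hp m hm
      simp only [Set.mem_insert_iff, Set.mem_singleton_iff] at this
      rcases this with h | h | h | h | h | h | h | h | h | h | h | h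
      · exact ⟨0, by norm_num, 0, by omega, h⟩
      · exact ⟨1, by norm_num, 0, by omega, h⟩
      · exact ⟨2, by norm_num, 0, by omega, h⟩
      · exact ⟨3, by norm_num, 0, by omega, h⟩
      · exact ⟨0, by norm_num, k, by omega, h⟩
      · exact ⟨1, by norm_num, k, by omega, h⟩
      · exact ⟨2, by norm_num, k, by omega, h⟩
      · exact ⟨3, by norm_num, k, by omega, h⟩
      · exact ⟨0, by norm_num, k + 1, by omega, h⟩
      · exact ⟨1, by norm_num, k + 1, by omega, h⟩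
      · exact ⟨2, by norm_num, k + 1, by omega, h⟩
      · exact ⟨3, by norm_num, k + 1, by omega, h⟩
    rw [sum_congr rfl hst, sum_sub_distrib,
      sum_range_sub (fun k => PP W (x 0 0) (x 1 0) (x 2 0) (x 3 0) (x 0 k) (x 1 k) (x 2 k) (x 3 k))]
    rw [hx 0 (by norm_num), hx 1 (by norm_num), hx 2 (by norm_num), hx 3 (by norm_num), sub_self,
      zero_sub]
    simp only [sum_sub_distrib, sum_add_distrib]
    simp only [cobd, sum_range_succ, sum_range_zero]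
    simp [Pool.Agent.Helper76.Freq.sk, hθ]
    ring

end Pool.Agent.Helper50.Drop
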